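import Pool.Agent.Lib.MP_e1f7e2_al.SU.Iface

set_option autoImplicit false

/-! Project SU3 (MP_e1f7e2_al): module D12. -/

open MvPolynomial

namespace Pool.Agent.Lib.MP_e1f7e2_al.SU.H84

variable {K : Type*} [Field K] {w : Fin 3 → ℝ}

/-- module D12 -/
theorem d12 (F : Facts K w) (S : SuAll K w) : D12Statement K w := by
  intro f1 f2 f3 Q p γ hG hγ hodd hp h1 h3 hb hres hle
  have hF := hG.fr
  have hd12 := hG.d12
  have hd23 := hG.d23
  have hbp : 0 < br w f2 f3 := F.b.bpos f2 f3 f1 hF.rot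
  have hb2 : 0 < br w f1 f3 := F.b.bpos f1 f3 f2 hF.swap23
  have hs := F.b.sgpos
  have hp' : (3 : ℝ) ≤ (p : ℝ) := by exact_mod_cast hp
  by_cases hdeg : dg w (ev Q f2 f3) < vdg (dg w f2) (dg w f3) Q
  · -- degenerate
    exfalso
    obtain ⟨p', q, m, c, H⟩ := S.su f2 f3 Q hbp hdeg
    obtain ⟨i, j, hv⟩ := H.vd
    have hc := H.hγ
    have hm1 : (1 : ℝ) ≤ (m : ℝ) := by exact_mod_cast H.hm
    have hpc : (p' : ℝ) * c = dg w f2 := H.df.symm
    have hqc : (q : ℝ) * c = dg w f3 := H.dg'.symm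
    have hq1 : q ≠ 1 := by
      intro hq
      apply hres p'
      rw [← hqc, ← hpc, hq]; push_cast; ring
    have hq2 : 2 ≤ q := by have := H.hq; omega
    have hq2' : (2 : ℝ) ≤ (q : ℝ) := by exact_mod_cast hq2
    obtain ⟨-, t2⟩ := S.t2m f2 f3 f1 Q p' q m c hF.rot H
    have hcomm : br w f3 f1 = br w f1 f3 := F.b.comm _ _
    rw [hcomm] at t2
    have hij : 0 ≤ ((i : ℝ) * p' + j * q) * c := by positivity
    have e1 : (m : ℝ) * ((q - 1) * dg w f2 - br w f1 f3 + sg w) ≤ p * γ := by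
      have : (m : ℝ) * p' * q * c = m * q * dg w f2 := by rw [← hpc]; ring
      rw [hv, this, ] at t2
      rw [h1] at hle
      nlinarith
    have e2 : 1 * (((q : ℝ) - 2) * dg w f2 + (p - 2) * γ + sg w) ≤
        (m : ℝ) * ((q - 1) * dg w f2 - br w f1 f3 + sg w) := by
      apply mul_le_mul hm1 _ _ (by linarith)
      · linarith
      · have : 0 ≤ ((q : ℝ) - 2) * dg w f2 := by
          apply mul_nonneg <;> linarith
        have h' : 0 ≤ ((p : ℝ) - 2) * γ := by
          apply mul_nonneg <;> linarith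
        linarith
    have e3 : ((q : ℝ) - 2) * dg w f2 < 2 * γ := by nlinarith
    have hq_eq : q = 2 := by
      by_contra hne
      have h3q : (3 : ℝ) ≤ (q : ℝ) := by exact_mod_cast (show 3 ≤ q by omega)
      have : 1 * dg w f2 ≤ ((q : ℝ) - 2) * dg w f2 := by
        apply mul_le_mul_of_nonneg_right <;> linarith
      linarith
    subst hq_eq
    have hcγ : c = γ := by push_cast at hqc; linarith
    subst hcγ
    have l1 : p' < p := by
      have : (p' : ℝ) * c < p * c := by rw [hpc, ← h1]; exact hd12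
      exact_mod_cast lt_of_mul_lt_mul_right this hc.le
    have l2 : p < p' + 2 := by
      have : (p : ℝ) * c < (p' + 2) * c := by
        rw [add_mul, hpc]; linarith
      have := lt_of_mul_lt_mul_right this hc.le
      exact_mod_cast this
    have hpe : p = p' + 1 := by omega
    have hcop := H.cop
    rw [Nat.coprime_comm, Nat.coprime_two_left] at hcop
    rw [hpe] at hodd
    rcases hcop with ⟨a, ha⟩
    rcases hodd with ⟨b, hb⟩
    omega
  · -- nondegenerate
    push Not at hdeg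
    have hv : vdg (dg w f2) (dg w f3) Q ≤ p * γ := by rw [← h1]; exact hdeg.trans hle
    have hsupp : ∀ m ∈ Q.support, m 0 = 0 ∨ (m 0 = 1 ∧ m 1 = 0) := by
      intro m hm
      have hge := (F.p.ge (dg w f2) (dg w f3) Q m hm).trans hv
      by_cases h0 : m 0 = 0
      · exact Or.inl h0
      have h1' : m 0 = 1 := by
        by_contra hne
        have h2 : (2 : ℝ) ≤ ((m 0 : ℕ) : ℝ) := by exact_mod_cast (show 2 ≤ m 0 by omega)
        have h3' : 0 ≤ ((m 1 : ℕ) : ℝ) * dg w f3 := by
          apply mul_nonneg (Nat.cast_nonneg _) (F.d.nn _)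
        have h4 : 2 * dg w f2 ≤ ((m 0 : ℕ) : ℝ) * dg w f2 :=
          mul_le_mul_of_nonneg_right h2 (F.d.nn _)
        -- `2 d2 ≤ p γ` is impossible
        rcases Nat.lt_or_ge p 4 with hp4 | hp4
        · have hpe : p = 3 := by omega
          subst hpe
          push_cast at *
          linarith
        · have hp4' : (4 : ℝ) ≤ (p : ℝ) := by exact_mod_cast hp4
          nlinarith
      refine Or.inr ⟨h1', ?_⟩
      by_contra hne
      have h2 : (1 : ℝ) ≤ ((m 1 : ℕ) : ℝ) := by exact_mod_cast (show 1 ≤ m 1 by omega)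
      have h3' : 1 * dg w f3 ≤ ((m 1 : ℕ) : ℝ) * dg w f3 :=
        mul_le_mul_of_nonneg_right h2 (F.d.nn _)
      rw [h1'] at hge
      push_cast at hge
      linarith
    obtain ⟨c, R, hR⟩ := F.p.lin0 Q hsupp
    exact ⟨c, R, hR f2 f3⟩

end Pool.Agent.Lib.MP_e1f7e2_al.SU.H84
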