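import Pool.Agent.Lib.MP_e1f7e2_al.SU.Iface

set_option autoImplicit false

/-! Project SU3 (MP_e1f7e2_al): module D23. -/

open MvPolynomial

namespace Pool.Agent.Lib.MP_e1f7e2_al.SU.H84

variable {K : Type*} [Field K] {w : Fin 3 → ℝ}

/-- module D23 -/
theorem d23 (F : Facts K w) (S : SuAll K w) : D23Statement K w := by
  intro f1 f2 f3 P γ hF hγ h1 h2 h3 h3' hb hdeg hle
  have hbp : 0 < br w f1 f3 := F.b.bpos f1 f3 f2 hF.swap23
  obtain ⟨p, q, m, c, H⟩ := S.su f1 f3 P hbp hdeg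
  obtain ⟨i, j, hv⟩ := H.vd
  have hs := F.b.sgpos
  have hc := H.hγ
  have hq1 : (1 : ℝ) ≤ (q : ℝ) := by exact_mod_cast H.hq
  have hm1 : (1 : ℝ) ≤ (m : ℝ) := by exact_mod_cast H.hm
  have hpc : (p : ℝ) * c = 3 * γ := by rw [← H.df, h1]
  have hqc : (q : ℝ) * c = dg w f3 := H.dg'.symm
  obtain ⟨t1, -⟩ := S.t2m f1 f3 f2 P p q m c hF.swap23 H
  have hqp : q < p := by
    have : (q : ℝ) * c < p * c := by rw [hqc, hpc]; linarith
    exact_mod_cast lt_of_mul_lt_mul_right this hc.le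
  have hij : 0 ≤ ((i : ℝ) * p + j * q) * c := by positivity
  have hmain : (m : ℝ) * ((p - 2) * dg w f3 + γ + sg w) ≤ 2 * γ := by
    have e1 : (m : ℝ) * ((p - 1) * dg w f3 - br w f1 f2 + sg w) ≤ 2 * γ := by
      have : (m : ℝ) * p * q * c = m * p * dg w f3 := by rw [← hqc]; ring
      rw [hv, this] at t1
      nlinarith
    have e2 : (m : ℝ) * ((p - 2) * dg w f3 + γ + sg w) ≤
        (m : ℝ) * ((p - 1) * dg w f3 - br w f1 f2 + sg w) := by
      apply mul_le_mul_of_nonneg_left _ (by linarith)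
      linarith
    linarith
  have hp2 : p ≤ 2 := by
    by_contra hne
    have h3p : (3 : ℝ) ≤ (p : ℝ) := by exact_mod_cast (show 3 ≤ p by omega)
    have e1 : 1 * dg w f3 ≤ ((p : ℝ) - 2) * dg w f3 := by
      apply mul_le_mul_of_nonneg_right <;> linarith
    have e2 : 1 * (((p : ℝ) - 2) * dg w f3 + γ + sg w) ≤
        (m : ℝ) * ((p - 2) * dg w f3 + γ + sg w) := by
      apply mul_le_mul_of_nonneg_right hm1
      linarith
    linarith
  have hq := H.hq
  have hp_eq : p = 2 := by omega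
  have hq_eq : q = 1 := by omega
  subst hp_eq hq_eq
  push_cast at hpc hqc
  linarith

end Pool.Agent.Lib.MP_e1f7e2_al.SU.H84
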