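import Pool.Agent.Lib.MP_e1f7e2_al.SU.Iface

set_option autoImplicit false

/-! Project SU3 (MP_e1f7e2_al): module N964. -/

open MvPolynomial

namespace Pool.Agent.Lib.MP_e1f7e2_al.SU.H84

variable {K : Type*} [Field K] {w : Fin 3 → ℝ}

theorem pd_one_zero (P : MvPolynomial (Fin 2) K) : pd 1 0 P = pderiv 0 P := by
  simp [pd]

theorem pd_zero_one (P : MvPolynomial (Fin 2) K) : pd 0 1 P = pderiv 1 P := by
  simp [pd]

theorem pd_zero_zero (P : MvPolynomial (Fin 2) K) : pd 0 0 P = P := by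
  simp [pd]

/-- module N964 -/
theorem n964 (F : Facts K w) (S : SuAll K w) : N964Statement K w := by
  intro f1 f2 f3 Q γ hF hγ h1 h2 h3 h3' hb hdeg hle
  have hbp : 0 < br w f2 f3 := F.b.bpos f2 f3 f1 hF.rot
  obtain ⟨p, q, m, c, H⟩ := S.su f2 f3 Q hbp hdeg
  obtain ⟨i, j, hv⟩ := H.vd
  have hs := F.b.sgpos
  have hc := H.hγ
  have hp1 : (1 : ℝ) ≤ (p : ℝ) := by exact_mod_cast H.hp
  have hq1 : (1 : ℝ) ≤ (q : ℝ) := by exact_mod_cast H.hq
  have hm1 : (1 : ℝ) ≤ (m : ℝ) := by exact_mod_cast H.hm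
  have hpc : (p : ℝ) * c = 2 * γ := by rw [← H.df, h2]
  have hqc : (q : ℝ) * c = dg w f3 := H.dg'.symm
  obtain ⟨t1, t2⟩ := S.t2m f2 f3 f1 Q p q m c hF.rot H
  have hcomm : br w f2 f1 = br w f1 f2 := F.b.comm _ _
  rw [hcomm] at t1
  -- `q < p < 2 q`
  have hqp : q < p := by
    have : (q : ℝ) * c < p * c := by rw [hqc, hpc]; exact h3'
    exact_mod_cast lt_of_mul_lt_mul_right this hc.le
  have hp2q : p < 2 * q := by
    have : (p : ℝ) * c < 2 * q * c := by rw [mul_assoc, hqc, hpc]; linarith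
    exact_mod_cast lt_of_mul_lt_mul_right this hc.le
  have hp3 : 3 ≤ p := by omega
  have hp3' : (3 : ℝ) ≤ (p : ℝ) := by exact_mod_cast hp3
  have hij : 0 ≤ ((i : ℝ) * p + j * q) * c := by positivity
  -- the main inequality
  have hmain : (m : ℝ) * ((p - 2) * dg w f3 + γ + sg w) ≤ 3 * γ := by
    have e1 : (m : ℝ) * ((p - 1) * dg w f3 - br w f1 f2 + sg w) ≤ 3 * γ := by
      have : (m : ℝ) * p * q * c = m * p * dg w f3 := by rw [← hqc]; ring
      rw [hv, this] at t1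
      nlinarith
    have e2 : (m : ℝ) * ((p - 2) * dg w f3 + γ + sg w) ≤
        (m : ℝ) * ((p - 1) * dg w f3 - br w f1 f2 + sg w) := by
      apply mul_le_mul_of_nonneg_left _ (by linarith)
      linarith
    linarith
  have hpos : 0 < ((p : ℝ) - 2) * dg w f3 := by
    apply mul_pos <;> linarith
  have hmain1 : ((p : ℝ) - 2) * dg w f3 + γ + sg w ≤ 3 * γ := by
    nlinarith
  -- `(p - 2) q < p`
  have hpq : (p - 2) * q < p := by
    have e : ((p : ℝ) - 2) * q * c < p * c := by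
      rw [mul_assoc, hqc, hpc]; linarith
    have e' := lt_of_mul_lt_mul_right e hc.le
    have : (((p - 2) * q : ℕ) : ℝ) < ((p : ℕ) : ℝ) := by
      push_cast [Nat.cast_sub (show 2 ≤ p by omega)]
      exact e'
    exact_mod_cast this
  have hp_eq : p = 3 := by
    by_contra hne
    have h4 : 4 ≤ p := by omega
    obtain ⟨k, rfl⟩ : ∃ k, p = k + 4 := ⟨p - 4, by omega⟩
    have h5 : (k + 4 - 2) * q = (k + 2) * q := by congr 1
    rw [h5] at hpq
    have hq3 : 3 ≤ q := by omega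
    nlinarith
  subst hp_eq
  have hq_eq : q = 2 := by omega
  subst hq_eq
  have hd3 : 3 * dg w f3 = 4 * γ := by
    rw [← hqc]; push_cast at hpc ⊢; linarith
  have hm_eq : m = 1 := by
    by_contra hne
    have h2m : 2 ≤ m := by have := H.hm; omega
    have h2m' : (2 : ℝ) ≤ (m : ℝ) := by exact_mod_cast h2m
    push_cast at hmain
    have : 2 * ((3 - 2) * dg w f3 + γ + sg w) ≤ (m : ℝ) * ((3 - 2) * dg w f3 + γ + sg w) := by
      apply mul_le_mul_of_nonneg_right h2m'
      linarith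
    linarith
  subst hm_eq
  have hc' : 3 * c = 2 * γ := by push_cast at hpc; linarith
  push_cast at t1 hv
  have hij0 : i = 0 ∧ j = 0 := by
    by_contra hne
    have h2 : 2 ≤ i * 3 + j * 2 := by omega
    have h2' : (2 : ℝ) ≤ (i : ℝ) * 3 + j * 2 := by exact_mod_cast h2
    have h3 : 2 * c ≤ ((i : ℝ) * 3 + j * 2) * c := mul_le_mul_of_nonneg_right h2' hc.le
    linarith
  obtain ⟨hi0, hj0⟩ := hij0
  subst hi0 hj0
  have hvd : vdg (dg w f2) (dg w f3) Q = 4 * γ := by
    rw [hv]; push_cast; linarith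
  have top1 := H.top 1 0 rfl
  have top2 := H.top 0 1 rfl
  rw [pd_one_zero, hvd] at top1
  rw [pd_zero_one, hvd] at top2
  have low0 := H.low 0 0 (by norm_num)
  rw [pd_zero_zero, hvd] at low0
  push_cast at top1 top2 low0
  refine ⟨hd3, ?_, ?_, ?_⟩
  · rw [top1]; linarith
  · rw [top2]; linarith
  · linarith

end Pool.Agent.Lib.MP_e1f7e2_al.SU.H84
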