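import Pool.Agent.Lib.MP_e1f7e2_al.SU.Iface

set_option autoImplicit false

/-! Project SU3 (MP_e1f7e2_al): small lemmas for P13 and P31. -/

open MvPolynomial

namespace Pool.Agent.Lib.MP_e1f7e2_al.SU.H84

variable {K : Type*} [Field K] {w : Fin 3 → ℝ}

theorem dg_eq_of_strict (F : Facts K w) {f e : MvPolynomial (Fin 3) K}
    (h : dg w (f + e) < dg w f) : dg w e = dg w f := by
  have := F.d.sub_right (f + e) f h
  rwa [add_sub_cancel_left] at this

theorem dg_le_of_le (F : Facts K w) {f e : MvPolynomial (Fin 3) K}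
    (h : dg w (f + e) ≤ dg w f) : dg w e ≤ dg w f := by
  have := F.d.sub_le (f + e) f
  rw [add_sub_cancel_left, max_eq_right h] at this
  exact this

theorem lead_pow (F : Facts K w) {f g : MvPolynomial (Fin 3) K} (n : ℕ) (hf : 0 < dg w f)
    (h : dg w f = n * dg w g) : ∃ c : K, dg w (f - C c * g ^ n) < dg w f := by
  obtain ⟨c, -, hc⟩ := F.d.lead f (g ^ n) hf (by rw [F.d.pow, h])
  exact ⟨c, hc⟩

theorem ev_mono0 (c : K) (n : ℕ) (f g : MvPolynomial (Fin 3) K) :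
    ev (C c * X 0 ^ n : MvPolynomial (Fin 2) K) f g = C c * f ^ n := by
  rw [ev_mul, ev_C, ev_pow, ev_X0]

theorem aeval_mono (c : K) (n : ℕ) (f : MvPolynomial (Fin 3) K) :
    Polynomial.aeval f (-(Polynomial.C c * Polynomial.X ^ n) : Polynomial K) =
      -(C c * f ^ n) := by
  simp [algebraMap_eq]

/-- a minimal element of `f + K[g,h]` -/
theorem exists_min (F : Facts K w) (f g h : MvPolynomial (Fin 3) K) :
    ∃ R : MvPolynomial (Fin 2) K, ∀ R' : MvPolynomial (Fin 2) K,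
      dg w (f + ev R g h) ≤ dg w (f + ev R' g h) := by
  obtain ⟨x, ⟨R, rfl⟩, hx⟩ := F.d.minim
    {x | ∃ R : MvPolynomial (Fin 2) K, x = f + ev R g h} ⟨f + ev 0 g h, 0, rfl⟩
  exact ⟨R, fun R' => hx _ ⟨R', rfl⟩⟩

theorem min_add {f g h : MvPolynomial (Fin 3) K} {R : MvPolynomial (Fin 2) K}
    (H : ∀ R' : MvPolynomial (Fin 2) K, dg w (f + ev R g h) ≤ dg w (f + ev R' g h))
    (R' : MvPolynomial (Fin 2) K) : dg w (f + ev R g h) ≤ dg w (f + ev R g h + ev R' g h) := by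
  have := H (R + R')
  rwa [ev_add, ← add_assoc] at this

/-- moving along a plane, first place -/
theorem go1' {ν : ℝ} (ih : IHyp K w ν) {f g h : MvPolynomial (Fin 3) K}
    {Q : MvPolynomial (Fin 2) K} (H : Fr f g h)
    (hd : dg w (f + ev Q g h) + dg w g + dg w h < ν) (hr : Red w (sp3 (f + ev Q g h) g h))
    (P : MvPolynomial (Fin 2) K) : Red w (sp3 (f + ev P g h) g h) := by
  have := ih.go1 (H.elem1 Q) hd hr (P - Q)
  have e : f + ev Q g h + ev (P - Q) g h = f + ev P g h := by rw [ev_sub]; ring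
  rwa [e] at this

/-- moving along a plane, third place -/
theorem go3' {ν : ℝ} (ih : IHyp K w ν) {f g h : MvPolynomial (Fin 3) K}
    {Q : MvPolynomial (Fin 2) K} (H : Fr f g h)
    (hd : dg w f + dg w g + dg w (h + ev Q f g) < ν) (hr : Red w (sp3 f g (h + ev Q f g)))
    (P : MvPolynomial (Fin 2) K) : Red w (sp3 f g (h + ev P f g)) := by
  have := ih.go3 (H.elem3 Q) hd hr (P - Q)
  have e : h + ev Q f g + ev (P - Q) f g = h + ev P f g := by rw [ev_sub]; ring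
  rwa [e] at this

theorem sp3_C3 (f g h : MvPolynomial (Fin 3) K) (c : K) : sp3 f g (h + C c) = sp3 f g h := by
  rw [sp3_rot', sp3_rot' f g h]
  have := sp3_add1 h f g 0 0 c
  simpa using this

/-- the case `d1 = n d2` of P13 -/
theorem p13A (F : Facts K w) (hsq : SqiiStatement K w) {f1 f2 f3 : MvPolynomial (Fin 3) K}
    {Q P : MvPolynomial (Fin 2) K} (n : ℕ) (hG : Good w f1 f2 f3)
    (ih : IHyp K w (dg w f1 + dg w f2 + dg w f3))
    (hQ : dg w (f1 + ev Q f2 f3) < dg w f1) (hr : Red w (sp3 (f1 + ev Q f2 f3) f2 f3))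
    (hP : dg w (f3 + ev P f1 f2) ≤ dg w f3) (hn : dg w f1 = n * dg w f2) :
    Red w (sp3 f1 f2 (f3 + ev P f1 f2)) := by
  obtain ⟨c, hc⟩ := lead_pow F n (F.b.dpos _ _ _ hG.fr) hn
  have hy := go1' ih hG.fr (by linarith) hr (-(C c * X 0 ^ n))
  rw [ev_neg, ev_mono0] at hy
  have := hsq f2 f3 f1 (aeval ![X 1, X 0] P) (-(Polynomial.C c * Polynomial.X ^ n)) hG.fr.rot
    (by rwa [show dg w f2 + dg w f3 + dg w f1 = dg w f1 + dg w f2 + dg w f3 by ring])
    (by rw [ev_swap]; exact hP) (by rw [aeval_mono]; rwa [← sub_eq_add_neg])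
    (by rw [aeval_mono, sp3_rot']; exact hy)
  rw [ev_swap] at this
  rwa [sp3_rot]

/-- the case `d1 = n d2` of P31 -/
theorem p31A (F : Facts K w) (hsq : SqiStatement K w) {f1 f2 f3 : MvPolynomial (Fin 3) K}
    {Q P : MvPolynomial (Fin 2) K} (n : ℕ) (hG : Good w f1 f2 f3)
    (ih : IHyp K w (dg w f1 + dg w f2 + dg w f3))
    (hP : dg w (f3 + ev P f1 f2) < dg w f3) (hr : Red w (sp3 f1 f2 (f3 + ev P f1 f2)))
    (hn : dg w f1 = n * dg w f2) :
    Red w (sp3 (f1 + ev Q f2 f3) f2 f3) := by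
  obtain ⟨c, hc⟩ := lead_pow F n (F.b.dpos _ _ _ hG.fr) hn
  have hy := hsq f2 f3 f1 (aeval ![X 1, X 0] P) (-(Polynomial.C c * Polynomial.X ^ n)) hG.fr.rot
    (by rwa [show dg w f2 + dg w f3 + dg w f1 = dg w f1 + dg w f2 + dg w f3 by ring])
    (by rw [ev_swap]; exact hP) (by rw [aeval_mono, ← sub_eq_add_neg]; exact hc.le)
    (by rw [ev_swap, ← sp3_rot]; exact hr)
  rw [aeval_mono, ← sp3_rot, ← ev_mono0 c n f2 f3, ← ev_neg] at hy
  refine go1' ih hG.fr ?_ hy Q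
  rw [ev_neg, ev_mono0, ← sub_eq_add_neg]
  linarith

end Pool.Agent.Lib.MP_e1f7e2_al.SU.H84
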