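import Pool.Agent.Lib.MP_e1f7e2_al.SU.Iface
import Pool.Agent.Lib.MP_e1f7e2_al.SU.H84.Small

set_option autoImplicit false

/-! Project SU3 (MP_e1f7e2_al): module P13. -/

open MvPolynomial

namespace Pool.Agent.Lib.MP_e1f7e2_al.SU.H84

variable {K : Type*} [Field K] {w : Fin 3 → ℝ}

/-- in the case (T3), a nondegenerate `Q` of degree `3 γ` has `d3 = 3 γ / 2` -/
theorem t3_nondeg (F : Facts K w) {f2 f3 : MvPolynomial (Fin 3) K} {Q : MvPolynomial (Fin 2) K}
    {γ : ℝ} (hγ : 0 < γ) (d2 : dg w f2 = 2 * γ) (h3 : γ < dg w f3) (h3' : dg w f3 < 2 * γ)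
    (hQ : dg w (ev Q f2 f3) = 3 * γ)
    (hdeg : ¬ dg w (ev Q f2 f3) < vdg (dg w f2) (dg w f3) Q) : 2 * dg w f3 = 3 * γ := by
  have hQ0 : Q ≠ 0 := by
    rintro rfl
    rw [ev_zero, F.d.zero] at hQ
    linarith
  obtain ⟨m, -, hm⟩ := F.p.att (dg w f2) (dg w f3) Q hQ0
  have hv : vdg (dg w f2) (dg w f3) Q = 3 * γ :=
    le_antisymm ((not_lt.mp hdeg).trans hQ.le) (by rw [← hQ]; exact F.p.ev_le f2 f3 Q)
  rw [hv, d2] at hm
  have h1nn : 0 ≤ ((m 1 : ℕ) : ℝ) * dg w f3 := mul_nonneg (Nat.cast_nonneg _) (F.d.nn _)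
  have hm0 : m 0 = 0 := by
    by_contra hne
    by_cases hm1 : m 0 = 1
    · rw [hm1] at hm
      push_cast at hm
      by_cases h10 : m 1 = 0
      · rw [h10] at hm; push_cast at hm; linarith
      · have : (1 : ℝ) ≤ ((m 1 : ℕ) : ℝ) := by exact_mod_cast (show 1 ≤ m 1 by omega)
        have := mul_le_mul_of_nonneg_right this (F.d.nn f3)
        linarith
    · have : (2 : ℝ) ≤ ((m 0 : ℕ) : ℝ) := by exact_mod_cast (show 2 ≤ m 0 by omega)
      have := mul_le_mul_of_nonneg_right this (show 0 ≤ 2 * γ by linarith)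
      linarith
  rw [hm0] at hm
  push_cast at hm
  have hm1 : m 1 = 2 := by
    by_contra hne
    rcases Nat.lt_or_ge (m 1) 2 with h | h
    · have : ((m 1 : ℕ) : ℝ) ≤ 1 := by exact_mod_cast (show m 1 ≤ 1 by omega)
      have := mul_le_mul_of_nonneg_right this (F.d.nn f3)
      linarith
    · have : (3 : ℝ) ≤ ((m 1 : ℕ) : ℝ) := by exact_mod_cast (show 3 ≤ m 1 by omega)
      have := mul_le_mul_of_nonneg_right this (F.d.nn f3)
      linarith
  rw [hm1] at hm
  push_cast at hm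
  linarith

/-- module P13 -/
theorem p13 (F : Facts K w) (hsq : SqiiStatement K w) (hT3 : T3Statement K w)
    (hN : N964Statement K w) (hY : YStatement K w) (hB : BstarStatement K w) :
    P13Statement K w := by
  intro f1 f2 f3 Q P hG ih hQ hr hP
  have hF := hG.fr
  rcases hT3 f1 f2 f3 P hG hP with ⟨c, rfl⟩ | ⟨n, -, hn⟩ | ⟨γ, T⟩
  · -- constant
    rw [ev_C, sp3_C3]
    exact Red.e1 f1 f2 f3 Q hG hQ hr
  · exact p13A F hsq n hG ih hQ hr hP hn
  -- the case (T3)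
  have hs := F.b.sgpos
  have hb3 : 0 < br w f1 f2 := F.b.bpos _ _ _ hF
  have hb1 : 0 < br w f2 f3 := F.b.bpos _ _ _ hF.rot
  have hγ := T.hγ
  have d1 := T.d1
  have d2 := T.d2
  have lo := T.lo
  have hi := T.hi
  have tb1 := T.b1
  have tb2 := T.b2
  have h3 : γ < dg w f3 := by linarith
  have h3' : dg w f3 < 2 * γ := by rw [← d2]; exact hG.d23
  -- minimal element
  obtain ⟨R, hR⟩ := exists_min F f1 f2 f3
  have hg1 : dg w (f1 + ev R f2 f3) < dg w f1 := (hR Q).trans_lt hQ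
  have hredg : Red w (sp3 (f1 + ev R f2 f3) f2 f3) := go1' ih hF (by linarith) hr R
  have hRdeg : dg w (ev R f2 f3) = 3 * γ := by rw [dg_eq_of_strict F hg1, d1]
  by_cases hdeg : dg w (ev R f2 f3) < vdg (dg w f2) (dg w f3) R
  · -- degenerate: contradiction with (Y)
    exfalso
    obtain ⟨n1, n2, n3, n4⟩ := hN f1 f2 f3 R γ hF hγ d1 d2 h3 h3' (by linarith) hdeg hRdeg.le
    have hne0 : ev (pderiv 0 R) f2 f3 ≠ 0 := by
      intro h0; rw [h0, F.d.zero] at n2; linarith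
    have hne1 : ev (pderiv 1 R) f2 f3 ≠ 0 := by
      intro h0; rw [h0, F.d.zero] at n3; linarith
    have hc23 : cr (D f2) (D f3) ≠ 0 := F.b.cne _ _ _ hF.rot
    have hc32 : cr (D f3) (D f2) ≠ 0 := F.b.cne _ _ _ hF.rot.swap12
    have hv23 : dv w (cr (D f2) (D f3)) = br w f2 f3 := rfl
    have hv32 : dv w (cr (D f3) (D f2)) = br w f2 f3 := F.b.comm f3 f2
    have hv13 : dv w (cr (D f1) (D f3)) = br w f1 f3 := rfl
    have hv12 : dv w (cr (D f1) (D f2)) = br w f1 f2 := rfl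
    have hbr13 : br w (f1 + ev R f2 f3) f3 = 2 * γ + br w f2 f3 := by
      show dv w (cr (D (f1 + ev R f2 f3)) (D f3)) = _
      have hs2 := F.v.smul (ev (pderiv 0 R) f2 f3) (cr (D f2) (D f3)) hne0 hc23
      rw [n2, hv23] at hs2
      rw [cr_elem0, F.v.add_right _ _ (by rw [hs2, hv13, tb2]; linarith), hs2]
    have hbr12 : 3 * br w (f1 + ev R f2 f3) f2 = 8 * γ + 3 * br w f2 f3 := by
      show 3 * dv w (cr (D (f1 + ev R f2 f3)) (D f2)) = _
      have hs2 := F.v.smul (ev (pderiv 1 R) f2 f3) (cr (D f3) (D f2)) hne1 hc32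
      rw [hv32] at hs2
      rw [cr_elem1, F.v.add_right _ _ (by rw [hs2, hv12]; linarith), hs2]
      linarith
    have hle13 := F.b.le (f1 + ev R f2 f3) f3
    rw [hbr13] at hle13
    refine hY (f1 + ev R f2 f3) f2 f3 (γ / 3) (hF.elem1 R) (by linarith) (by linarith)
      (by linarith) (by linarith) (by linarith) (min_add hR) (by linarith) (by linarith)
      (by linarith) hredg
  · -- nondegenerate: BSTAR
    have hd3 := t3_nondeg F hγ d2 h3 h3' hRdeg hdeg
    obtain ⟨P', hP', hrP'⟩ := hB f1 f2 f3 (f1 + ev R f2 f3) R γ hF hγ d1 d2 (by linarith)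
      (by linarith) (by linarith) (by linarith) rfl (min_add hR) (by linarith) hredg
    exact go3' ih hF (by linarith) hrP' P

end Pool.Agent.Lib.MP_e1f7e2_al.SU.H84
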