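import Pool.Agent.Lib.MP_e1f7e2_al.SU.Iface
import Pool.Agent.Lib.MP_e1f7e2_al.SU.H84.Small

set_option autoImplicit false

/-! Project SU3 (MP_e1f7e2_al): module P31. -/

open MvPolynomial

namespace Pool.Agent.Lib.MP_e1f7e2_al.SU.H84

variable {K : Type*} [Field K] {w : Fin 3 → ℝ}

/-- in the case (T3), a nondegenerate `Q` of degree `≤ 3 γ` is quadratic -/
theorem t3_quad (F : Facts K w) {f2 f3 : MvPolynomial (Fin 3) K} {Q : MvPolynomial (Fin 2) K}
    {γ : ℝ} (hγ : 0 < γ) (d2 : dg w f2 = 2 * γ) (h3 : γ < dg w f3)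
    (hQ : vdg (dg w f2) (dg w f3) Q ≤ 3 * γ) :
    ∃ c0 c1 c2 c3 : K, ∀ f g : MvPolynomial (Fin 3) K,
      ev Q f g = C c0 + C c1 * f + C c2 * g + C c3 * g ^ 2 := by
  apply F.p.quad
  intro m hm
  have hge := (F.p.ge (dg w f2) (dg w f3) Q m hm).trans hQ
  rw [d2] at hge
  have h1nn : 0 ≤ ((m 1 : ℕ) : ℝ) * dg w f3 := mul_nonneg (Nat.cast_nonneg _) (F.d.nn _)
  by_cases h0 : m 0 = 0
  · refine Or.inl ⟨h0, ?_⟩
    by_contra hne
    have : (3 : ℝ) ≤ ((m 1 : ℕ) : ℝ) := by exact_mod_cast (show 3 ≤ m 1 by omega)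
    have := mul_le_mul_of_nonneg_right this (F.d.nn f3)
    rw [h0] at hge
    push_cast at hge
    linarith
  · by_cases h1 : m 0 = 1
    · refine Or.inr ⟨h1, ?_⟩
      by_contra hne
      have : (1 : ℝ) ≤ ((m 1 : ℕ) : ℝ) := by exact_mod_cast (show 1 ≤ m 1 by omega)
      have := mul_le_mul_of_nonneg_right this (F.d.nn f3)
      rw [h1] at hge
      push_cast at hge
      linarith
    · exfalso
      have : (2 : ℝ) ≤ ((m 0 : ℕ) : ℝ) := by exact_mod_cast (show 2 ≤ m 0 by omega)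
      have := mul_le_mul_of_nonneg_right this (show 0 ≤ 2 * γ by linarith)
      linarith

/-- module P31 -/
theorem p31 (F : Facts K w) (hsq : SqiStatement K w) (hT3 : T3Statement K w)
    (hN : N964Statement K w) (hX : XStatement K w) :
    P31Statement K w := by
  intro f1 f2 f3 P0 Q hG ih hP0 hr0 hQ
  have hF := hG.fr
  have hd3pos := F.b.dpos _ _ _ hF.rot'
  -- minimal `P`
  obtain ⟨P, hPmin⟩ := exists_min F f3 f1 f2
  have hP : dg w (f3 + ev P f1 f2) < dg w f3 := (hPmin P0).trans_lt hP0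
  have hr : Red w (sp3 f1 f2 (f3 + ev P f1 f2)) := go3' ih hF (by linarith) hr0 P
  rcases hT3 f1 f2 f3 P hG hP.le with ⟨c, rfl⟩ | ⟨n, -, hn⟩ | ⟨γ, T⟩
  · -- constant
    exfalso
    rw [ev_C, F.d.add_left _ _ (by rw [F.d.const]; exact hd3pos)] at hP
    exact lt_irrefl _ hP
  · exact p31A F hsq n hG ih hP hr hn
  -- the case (T3)
  have hs := F.b.sgpos
  have hb3 : 0 < br w f1 f2 := F.b.bpos _ _ _ hF
  have hγ := T.hγ
  have d1 := T.d1
  have d2 := T.d2
  have lo := T.lo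
  have hi := T.hi
  have h3 : γ < dg w f3 := by linarith
  have h3' : dg w f3 < 2 * γ := by rw [← d2]; exact hG.d23
  have hPc : ¬ ∃ c : K, P = C c := by
    rintro ⟨c, rfl⟩
    have := T.px
    rw [pderiv_C, ev_zero, F.d.zero] at this
    linarith
  have hnb : ∀ V', Adj (sp3 f1 f2 (f3 + ev P f1 f2)) V' → Red w V' :=
    ih f1 f2 (f3 + ev P f1 f2) (hF.elem3 P) (by linarith) hr
  have hQdeg : dg w (ev Q f2 f3) ≤ 3 * γ := by rw [← d1]; exact dg_le_of_le F hQ
  by_cases hdeg : dg w (ev Q f2 f3) < vdg (dg w f2) (dg w f3) Q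
  · -- degenerate: contradiction with (X)
    exfalso
    obtain ⟨n1, n2, n3, n4⟩ := hN f1 f2 f3 Q γ hF hγ d1 d2 h3 h3' (by linarith) hdeg hQdeg
    have hpx := T.px
    have hne0 : ev (pderiv 0 P) f1 f2 ≠ 0 := by
      intro h0; rw [h0, F.d.zero] at hpx; linarith
    have hc12 : cr (D f1) (D f2) ≠ 0 := F.b.cne _ _ _ hF
    have hv12 : dv w (cr (D f1) (D f2)) = br w f1 f2 := rfl
    have hv32 : dv w (cr (D f3) (D f2)) = br w f2 f3 := F.b.comm f3 f2
    have hbr : br w (f3 + ev P f1 f2) f2 = 3 * γ + br w f1 f2 := by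
      show dv w (cr (D (f3 + ev P f1 f2)) (D f2)) = _
      have hs2 := F.v.smul (ev (pderiv 0 P) f1 f2) (cr (D f1) (D f2)) hne0 hc12
      rw [hpx, hv12] at hs2
      rw [cr_elem0, F.v.add_right _ _ (by rw [hs2, hv32]; linarith), hs2]
    have hle := F.b.le (f3 + ev P f1 f2) f2
    rw [hbr, d2] at hle
    exact hX f1 f2 (f3 + ev P f1 f2) P γ (hF.elem3 P) hγ d1 d2 (by linarith) (by linarith)
      (min_add hPmin) hPc (by linarith) hnb hr
  · -- nondegenerate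
    obtain ⟨c0, c1, c2, c3, hq⟩ := t3_quad F hγ d2 h3 ((not_lt.mp hdeg).trans hQdeg)
    have hV' : sp3 (f1 + ev Q f2 f3) f2 f3 = sp3 (f1 + C c3 * f3 ^ 2) f2 f3 := by
      rw [hq f2 f3, ← sp3_add1 (f1 + C c3 * f3 ^ 2) f2 f3 c1 c2 c0]
      congr 1; ring
    rw [hV']
    by_cases h30 : c3 = 0
    · rw [h30, map_zero, zero_mul, add_zero]
      exact Red.e3 f1 f2 f3 P hG hP hr
    have hd3 : dg w f3 ≤ 3 / 2 * γ := by
      by_contra hgt
      push Not at hgt
      have e1 : dg w (C c3 * f3 ^ 2) = 2 * dg w f3 := by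
        rw [F.d.Cmul _ _ h30, F.d.pow]; push_cast; ring
      have e2 : dg w (C c0 + C c1 * f2 + C c2 * f3) ≤ 2 * γ := by
        refine (F.d.add_le _ _).trans (max_le ((F.d.add_le _ _).trans (max_le ?_ ?_)) ?_)
        · rw [F.d.const]; linarith
        · exact (F.d.Cmul_le _ _).trans d2.le
        · exact (F.d.Cmul_le _ _).trans h3'.le
      have e3 : dg w (ev Q f2 f3) = 2 * dg w f3 := by
        rw [hq f2 f3, F.d.add_right _ _ (by rw [e1]; linarith), e1]
      linarith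
    have hlt : dg w (f3 + ev P f1 f2) < γ + br w f1 f2 := by
      by_contra hge
      push Not at hge
      exact hX f1 f2 (f3 + ev P f1 f2) P γ (hF.elem3 P) hγ d1 d2 hge (by linarith)
        (min_add hPmin) hPc (by linarith) hnb hr
    have hf1 : f1 + C c3 * f3 ^ 2 + C (-c3) * f3 ^ 2 = f1 := by
      rw [map_neg]; ring
    have hfr : Fr (f1 + C c3 * f3 ^ 2) f2 f3 := by
      have := hF.elem1 (C c3 * X 1 ^ 2)
      rwa [ev_mul, ev_C, ev_pow, ev_X1] at this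
    refine Red.k (f1 + C c3 * f3 ^ 2) f2 f3 (-c3) P γ ⟨hfr, neg_ne_zero.mpr h30, hγ, ?_, d2,
      hd3, ?_, ?_⟩ ?_
    · rw [hf1]; exact d1
    · rw [hf1]; linarith
    · rw [hf1]; exact hlt
    · rw [hf1]; exact hr

end Pool.Agent.Lib.MP_e1f7e2_al.SU.H84
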